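import Pool.Agent.AEK.LT1
import Pool.Agent.AEF.Keep
import Pool.Agent.AE15.Transfer

/-!
# The rooted theorem inside a representative part

A tree with at most `(1 - θ) |X|` vertices is embedded with admissible root into a representative part `P` of `X \ E`; a
second representative part `Q` (which also keeps every member of a graded family) stays free.
-/

set_option autoImplicit false

namespace AEZ

open Finset AE15 AED AELT AEK Pool.Agent.AEF
open scoped Classical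

/-- wide vertices stay wide in every subset in which the test sets of a small family have the expected sizes -/
theorem exists_familyW {V : Type*} (R : V → V → Prop) (κ : ℝ) (X : Finset V) :
    ∃ FF : Finset (Finset V), FF.card ≤ X.card * (X.card + 1) ∧ (∀ F ∈ FF, F ⊆ X) ∧
      ∀ P ⊆ X, ∀ a a' κ' : ℝ, (∀ F ∈ FF, κ * X.card ≤ F.card → κ' * P.card ≤ (F ∩ P).card) →
        (∀ F ∈ FF, a ≤ (F.card : ℝ) → a' ≤ ((F ∩ P).card : ℝ)) →
        ∀ z ∈ X, Wide R κ a X z → Wide R κ' a' P z := by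
  have key : ∀ z : V, ∃ FF : Finset (Finset V), FF.card ≤ X.card + 1 ∧ (∀ F ∈ FF, F ⊆ X) ∧
      ∀ P ⊆ X, ∀ a a' κ' : ℝ, (∀ F ∈ FF, κ * X.card ≤ F.card → κ' * P.card ≤ (F ∩ P).card) →
        (∀ F ∈ FF, a ≤ (F.card : ℝ) → a' ≤ ((F ∩ P).card : ℝ)) →
        Wide R κ a X z → Wide R κ' a' P z := by
    intro z
    obtain ⟨W, hW, hmax⟩ := exists_max_image (X.powerset.filter (fun W => Rch R X (κ * X.card) z W)) (fun W => W.card)
      ⟨nO R X z, by simp only [mem_filter, mem_powerset]; exact ⟨AE15.nO_sub, Rch.base⟩⟩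
    simp only [mem_filter, mem_powerset] at hW hmax
    have hcl : Closed R κ X W := by
      intro u hu huW
      by_contra hc
      push Not at hc
      have h1 := hmax (insert u W) ⟨insert_subset hu hW.1, hW.2.step _ _ hu huW hc⟩
      rw [card_insert_of_notMem huW] at h1
      omega
    obtain ⟨FF, h1, h2, h3⟩ := hW.2.family
    refine ⟨insert W FF, ?_, ?_, ?_⟩
    · have h4 := card_le_card hW.1
      have h5 := card_insert_le W FF
      omega
    · intro F hF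
      rcases mem_insert.1 hF with rfl | hF
      · exact hW.1
      · exact (h2 F hF).1
    · intro P hP a a' κ' h4 h5 hwd C hC hnC hCc
      have h6 := h3 P C (κ' * P.card) hP (fun F hF => h4 F (mem_insert_of_mem hF) (h2 F hF).2) hnC hCc
      have h7 := h5 W (mem_insert_self _ _) (hwd W hW.1 hW.2.nO_sub hcl)
      have h8 : ((W ∩ P).card : ℝ) ≤ C.card := by exact_mod_cast card_le_card h6
      exact h7.trans h8
  choose FF h1 h2 h3 using key
  refine ⟨X.biUnion FF, ?_, ?_, ?_⟩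
  · refine card_biUnion_le.trans ?_
    rw [← smul_eq_mul]
    exact sum_le_card_nsmul _ _ _ (fun g _ => h1 g)
  · intro F hF
    obtain ⟨g, _, hF⟩ := mem_biUnion.1 hF
    exact h2 g F hF
  · intro P hP a a' κ' h4 h5 z hz hwd
    exact h3 z P hP a a' κ' (fun F hF => h4 F (mem_biUnion.2 ⟨z, hz, hF⟩)) (fun F hF => h5 F (mem_biUnion.2 ⟨z, hz, hF⟩))
      hwd

/-- a representative part of `X \ E` represents the sets of `X` -/
theorem rep_meet {V : Type*} {X E P : Finset V} {𝓕 : Finset (Finset V)} {ν c₀ : ℝ} (hν : ν ≤ c₀)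
    (hE : (E.card : ℝ) ≤ c₀ * X.card) (hX : 0 < X.card) (hP : Rep (X \ E) 𝓕 ν P) {F : Finset V} (hF : F ∈ 𝓕) (hFX : F ⊆ X) :
    ((F.card : ℝ) / X.card - 2 * c₀) * P.card ≤ ((F ∩ P).card : ℝ) := by
  have h1 := hP F hF
  have hX0 : (0 : ℝ) < X.card := by exact_mod_cast hX
  have h2 : (F.card : ℝ) ≤ (F ∩ (X \ E)).card + E.card := by
    have h3 : F ⊆ (F ∩ (X \ E)) ∪ E := by
      intro x hx
      rw [mem_union, mem_inter, mem_sdiff]
      by_cases hxE : x ∈ E
      · exact Or.inr hxE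
      · exact Or.inl ⟨hx, hFX hx, hxE⟩
    exact_mod_cast (card_le_card h3).trans (card_union_le _ _)
  have h4 : ((F ∩ (X \ E)).card : ℝ) / X.card ≤ ((F ∩ (X \ E)).card : ℝ) / (X \ E).card := by
    rcases Nat.eq_zero_or_pos (X \ E).card with h | h
    · have h5 : (F ∩ (X \ E)).card = 0 := by
        have := card_le_card (inter_subset_right : F ∩ (X \ E) ⊆ X \ E)
        omega
      rw [h5]
      simp
    · refine div_le_div_of_nonneg_left (Nat.cast_nonneg _) (by exact_mod_cast h) ?_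
      exact_mod_cast card_le_card sdiff_subset
  have h5 : (F.card : ℝ) / X.card ≤ ((F ∩ (X \ E)).card : ℝ) / X.card + c₀ := by
    rw [div_add' _ _ _ hX0.ne']
    exact div_le_div_of_nonneg_right (by linarith) hX0.le
  refine le_trans (mul_le_mul_of_nonneg_right ?_ (Nat.cast_nonneg _)) h1
  linarith

/-- the numbers -/
theorem wide_num {n P d W ε c₀ : ℝ} (hn : 0 < n) (hP : (1 - 7 * c₀) * n ≤ P) (hP1 : P ≤ n) (hc0 : 0 ≤ c₀) (hc : c₀ ≤ 1 / 100)
    (hd : d ≤ n) (hd0 : 0 ≤ d) (hW : d + ε * n ≤ W) (hε : 32 * c₀ ≤ ε) :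
    d + ε / 2 * P ≤ (W / n - 2 * c₀) * P := by
  have hP0 : n / 2 ≤ P := by nlinarith
  have hP00 : 0 ≤ P := by linarith
  have h1 : (d + ε * n) / n ≤ W / n := div_le_div_of_nonneg_right hW hn.le
  have h2 : (d + ε * n) / n = d / n + ε := by field_simp
  have h3 : (d / n + ε - 2 * c₀) * P ≤ (W / n - 2 * c₀) * P := mul_le_mul_of_nonneg_right (by linarith) hP00
  have h4 : d / n * n = d := by field_simp
  have h5 : d / n ≤ 1 := by
    rw [div_le_one hn]
    exact hd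
  have h6 : 0 ≤ d / n := by positivity
  -- `d / n * P ≥ d - 7 c₀ n`
  have h7 : d / n * ((1 - 7 * c₀) * n) ≤ d / n * P := mul_le_mul_of_nonneg_left hP h6
  have h8 : d / n * ((1 - 7 * c₀) * n) = d - 7 * c₀ * d := by
    calc d / n * ((1 - 7 * c₀) * n) = d / n * n * (1 - 7 * c₀) := by ring
      _ = _ := by rw [h4]; ring
  have h9 : 7 * c₀ * d ≤ 7 * c₀ * n := mul_le_mul_of_nonneg_left hd (by positivity)
  have h10 : c₀ * n ≤ 2 * c₀ * P := by nlinarith
  have h11 : 32 * c₀ * P ≤ ε * P := mul_le_mul_of_nonneg_right hε hP00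
  nlinarith

theorem rest (b : ℕ) (hb : 1 ≤ b) {κ ε θ : ℝ} (hκ : 0 < κ) (hε : 0 < ε) (hθ : 0 < θ) :
    ∃ c₀ : ℝ, 0 < c₀ ∧ ∀ c : ℝ, 0 < c → c ≤ c₀ → ∀ ν : ℝ, 0 < ν → ν ≤ c₀ → ∀ Kg : ℕ, ∃ n₀ M₉ c₉ : ℕ, 1 ≤ M₉ ∧
      ∀ {V : Type} {R : V → V → Prop}, AE32.Tour R → ∀ (X E : Finset V) (N : V → Prop) (𝓕 : Finset (Finset V)),
        n₀ ≤ X.card → E ⊆ X → (E.card : ℝ) ≤ c₀ * X.card → 𝓕.card ≤ X.card ^ 4 →
        ∀ {ι : Type} (G : Finset ι) (D : ι → Finset V), (∀ u ∈ G, D u ⊆ X \ E) → (∀ u ∈ G, (D u).Nonempty) →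
          Graded G D Kg →
        ∀ (S : Finset V) (I : V → Finset V), (∀ v ∈ S, I v ⊆ X \ E) → Graded S I Kg →
        ∀ f : Fd, f.len ≤ b → f.Deg b → (f.size + 1 : ℝ) ≤ (1 - θ) * X.card →
          ε * X.card ≤ ((X.filter (fun z => N z ∧ Wide R κ ((dcl f + 1) + ε * X.card) X z ∧
            Wide (fun a b => R b a) κ ((AEB.blk f + 1) + ε * X.card) X z)).card : ℝ) →
          ∃ P Q : Finset V, P ⊆ X \ E ∧ Q ⊆ X \ E ∧ Disjoint P Q ∧ Rep (X \ E) 𝓕 ν Q ∧ c * X.card ≤ Q.card ∧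
            (∀ u ∈ G, (D u ∩ Q).Nonempty ∧ (D u).card ≤ M₉ * (D u ∩ Q).card) ∧
            (∀ v ∈ S, c₉ ≤ (I v).card → (I v).card ≤ M₉ * (I v ∩ Q).card) ∧ In R f N P := by
  obtain ⟨c₀, hc₀⟩ : ∃ c₀ : ℝ, c₀ = min (min (κ / 4) (ε / 32)) (min (θ / 16) (1 / 100)) := ⟨_, rfl⟩
  have c1 : c₀ ≤ κ / 4 := by rw [hc₀]; exact (min_le_left _ _).trans (min_le_left _ _)
  have c2 : c₀ ≤ ε / 32 := by rw [hc₀]; exact (min_le_left _ _).trans (min_le_right _ _)
  have c3 : c₀ ≤ θ / 16 := by rw [hc₀]; exact (min_le_right _ _).trans (min_le_left _ _)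
  have c4 : c₀ ≤ 1 / 100 := by rw [hc₀]; exact (min_le_right _ _).trans (min_le_right _ _)
  have c5 : 0 < c₀ := by
    rw [hc₀]
    exact lt_min (lt_min (by positivity) (by positivity)) (lt_min (by positivity) (by norm_num))
  obtain ⟨ε₁, hε₁⟩ : ∃ ε₁ : ℝ, ε₁ = min (ε / 2) (θ / 2) := ⟨_, rfl⟩
  have e1 : ε₁ ≤ ε / 2 := by rw [hε₁]; exact min_le_left _ _
  have e2 : ε₁ ≤ θ / 2 := by rw [hε₁]; exact min_le_right _ _
  have e3 : 0 < ε₁ := by rw [hε₁]; exact lt_min (by positivity) (by positivity)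
  refine ⟨c₀, c5, ?_⟩
  intro c hc hcc ν hν hνc Kg
  obtain ⟨n₁, M₉, c₉, hM, hkeep⟩ := exists_pieces_keep (ε := ν) (c := 2 * c) hν (by linarith) (by positivity) 1 Kg
  obtain ⟨n₂, hlt⟩ := lt1 b hb (κ := κ / 2) (ε := ε₁) (by positivity) e3
  refine ⟨max (2 * n₁) (max (2 * n₂) 200), M₉, c₉, hM, ?_⟩
  intro V R hT X E N 𝓕 hn hEX hE h𝓕 ι G D hD hDn hGD S I hI hSI f hl hdg hf hN
  have hn1 : 2 * n₁ ≤ X.card := (le_max_left _ _).trans hn
  have hn2 : 2 * n₂ ≤ X.card := ((le_max_left _ _).trans (le_max_right _ _)).trans hn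
  have hn3 : 200 ≤ X.card := ((le_max_right _ _).trans (le_max_right _ _)).trans hn
  have hX0 : 0 < X.card := by omega
  have hXR : (0 : ℝ) < X.card := by exact_mod_cast hX0
  have hA : ((X \ E).card : ℝ) = X.card - E.card := by
    rw [card_sdiff_of_subset hEX, Nat.cast_sub (card_le_card hEX)]
  have hA1 : (1 - c₀) * X.card ≤ ((X \ E).card : ℝ) := by
    rw [hA]
    linarith
  have hA2 : X.card ≤ 2 * (X \ E).card := by
    have : (X.card : ℝ) ≤ 2 * (X \ E).card := by nlinarith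
    exact_mod_cast this
  obtain ⟨F1, f1, f2, f3⟩ := exists_familyW R κ X
  obtain ⟨F2, g1, g2, g3⟩ := exists_familyW (fun a b => R b a) κ X
  obtain ⟨FN, hFN⟩ : ∃ FN, FN = X.filter (fun z => N z ∧ Wide R κ ((dcl f + 1) + ε * X.card) X z ∧
      Wide (fun a b => R b a) κ ((AEB.blk f + 1) + ε * X.card) X z) := ⟨_, rfl⟩
  rw [← hFN] at hN
  have hFNX : FN ⊆ X := by rw [hFN]; exact filter_subset _ _
  obtain ⟨𝓖, h𝓖⟩ : ∃ 𝓖, 𝓖 = insert FN (𝓕 ∪ (F1 ∪ F2)) := ⟨_, rfl⟩
  have hcard : 𝓖.card ≤ (X \ E).card ^ 5 := by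
    have h1 : 𝓖.card ≤ X.card ^ 4 + 2 * (X.card * (X.card + 1)) + 1 := by
      rw [h𝓖]
      have h2 := card_insert_le FN (𝓕 ∪ (F1 ∪ F2))
      have h3 := card_union_le 𝓕 (F1 ∪ F2)
      have h4 := card_union_le F1 F2
      omega
    have h5 : X.card ^ 5 ≤ 32 * (X \ E).card ^ 5 := by
      calc X.card ^ 5 ≤ (2 * (X \ E).card) ^ 5 := Nat.pow_le_pow_left hA2 5
        _ = _ := by ring
    have h6 : 32 * (X.card ^ 4 + 2 * (X.card * (X.card + 1)) + 1) ≤ X.card ^ 5 := by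
      obtain ⟨m, hm⟩ := Nat.exists_eq_add_of_le hn3
      rw [hm]
      ring_nf
      nlinarith [sq_nonneg m, Nat.zero_le (m ^ 3), Nat.zero_le (m ^ 4), Nat.zero_le (m ^ 5), Nat.zero_le (m ^ 2)]
    omega
  obtain ⟨Pf, Q, p1, -, -, p4, p5, p6, p7, p8, p9, p10, p11⟩ := hkeep (X \ E) 𝓖 (by omega) hcard G D hD hDn hGD S I hI hSI 1
    (fun _ => (1 - 3 * (2 * c)) * (X \ E).card) le_rfl (fun _ => by
      have : 0 ≤ 1 - 3 * (2 * c) := by linarith
      positivity) (by simp)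
  obtain ⟨P, hP⟩ : ∃ P, P = Pf 0 := ⟨_, rfl⟩
  have q1 := p1 0
  have q2 := p6 0
  have q3 := p7 0
  rw [← hP] at q1 q2 q3
  have hPX : P ⊆ X := q1.trans sdiff_subset
  have hPn : (P.card : ℝ) ≤ X.card := by exact_mod_cast card_le_card hPX
  have hPc : (1 - 7 * c₀) * X.card ≤ (P.card : ℝ) := by
    refine le_trans ?_ q2
    have h1 : (1 - 3 * (2 * c)) * ((1 - c₀) * X.card) ≤ (1 - 3 * (2 * c)) * (X \ E).card :=
      mul_le_mul_of_nonneg_left hA1 (by linarith)
    refine le_trans ?_ h1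
    rw [← mul_assoc]
    refine mul_le_mul_of_nonneg_right ?_ hXR.le
    nlinarith
  have hP2 : (X.card : ℝ) / 2 ≤ P.card := by nlinarith
  have hP0 : (0 : ℝ) < P.card := by linarith
  have hmem1 : ∀ F ∈ F1, F ∈ 𝓖 := fun F hF => by
    rw [h𝓖]; exact mem_insert_of_mem (mem_union_right _ (mem_union_left _ hF))
  have hmem2 : ∀ F ∈ F2, F ∈ 𝓖 := fun F hF => by
    rw [h𝓖]; exact mem_insert_of_mem (mem_union_right _ (mem_union_right _ hF))
  have hkap : ∀ F ∈ 𝓖, F ⊆ X → κ * X.card ≤ (F.card : ℝ) → κ / 2 * P.card ≤ ((F ∩ P).card : ℝ) := by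
    intro F hF hFX hk
    refine le_trans ?_ (rep_meet hνc hE hX0 q3 hF hFX)
    refine mul_le_mul_of_nonneg_right ?_ hP0.le
    have h1 : κ ≤ (F.card : ℝ) / X.card := by
      rw [le_div_iff₀ hXR]
      exact hk
    linarith
  have hs0 : (0 : ℝ) ≤ (f.size : ℝ) := Nat.cast_nonneg _
  have hfX : (f.size : ℝ) + 1 ≤ X.card := by
    have : 0 ≤ θ * (X.card : ℝ) := by positivity
    linarith
  have hd1 : ((dcl f : ℕ) : ℝ) ≤ f.size := by exact_mod_cast dcl_le_size f
  have hd2 : ((AEB.blk f : ℕ) : ℝ) ≤ f.size := by exact_mod_cast blk_le_size f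
  refine ⟨P, Q, q1, p5, by rw [hP]; exact p4 0, ?_, ?_, p10, fun v hv h => (p11 v hv h).1, ?_⟩
  · intro F hF
    exact p9 F (by rw [h𝓖]; exact mem_insert_of_mem (mem_union_left _ hF))
  · refine le_trans ?_ p8
    have h1 : (X.card : ℝ) ≤ 2 * (X \ E).card := by exact_mod_cast hA2
    have h2 := mul_le_mul_of_nonneg_left h1 hc.le
    linarith
  · refine hlt hT P N ?_ f hl hdg ?_ ?_
    · have : (n₂ : ℝ) ≤ P.card := by
        have h1 : (2 * n₂ : ℝ) ≤ X.card := by exact_mod_cast hn2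
        linarith
      exact_mod_cast this
    · refine hf.trans ?_
      have h1 : (1 - ε₁) * ((1 - 7 * c₀) * X.card) ≤ (1 - ε₁) * P.card ∨ 1 - ε₁ < 0 := by
        by_cases h : 0 ≤ 1 - ε₁
        · exact Or.inl (mul_le_mul_of_nonneg_left hPc h)
        · exact Or.inr (not_le.1 h)
      rcases h1 with h1 | h1
      · refine le_trans ?_ h1
        rw [← mul_assoc]
        refine mul_le_mul_of_nonneg_right ?_ hXR.le
        nlinarith
      · exfalso
        have h2 : 1 - θ < 0 := by linarith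
        have h3 : (1 - θ) * (X.card : ℝ) < 0 := mul_neg_of_neg_of_pos h2 hXR
        linarith
    · have hNP : ε / 2 * P.card ≤ ((FN ∩ P).card : ℝ) := by
        refine le_trans ?_ (rep_meet hνc hE hX0 q3 (by rw [h𝓖]; exact mem_insert_self _ _) hFNX)
        refine mul_le_mul_of_nonneg_right ?_ hP0.le
        have h1 : ε ≤ (FN.card : ℝ) / X.card := by
          rw [le_div_iff₀ hXR]
          exact hN
        linarith
      refine (mul_le_mul_of_nonneg_right e1 hP0.le).trans (hNP.trans ?_)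
      refine Nat.cast_le.2 (card_le_card ?_)
      intro z hz
      rw [mem_inter, hFN, mem_filter] at hz
      obtain ⟨⟨hzX, hzN, hw1, hw2⟩, hzP⟩ := hz
      rw [mem_filter]
      refine ⟨hzP, hzN, ?_, ?_⟩
      · refine wide_mono ?_ (f3 P hPX _ ((dcl f + 1) + ε / 2 * P.card) (κ / 2)
          (fun F hF => hkap F (hmem1 F hF) (f2 F hF)) ?_ z hzX hw1)
        · have := mul_le_mul_of_nonneg_right e1 hP0.le
          linarith
        · intro F hF ha
          exact (wide_num hXR hPc hPn c5.le c4 (by linarith) (by positivity) ha (by linarith)).trans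
            (rep_meet hνc hE hX0 q3 (hmem1 F hF) (f2 F hF))
      · refine wide_mono ?_ (g3 P hPX _ ((AEB.blk f + 1) + ε / 2 * P.card) (κ / 2)
          (fun F hF => hkap F (hmem2 F hF) (g2 F hF)) ?_ z hzX hw2)
        · have := mul_le_mul_of_nonneg_right e1 hP0.le
          linarith
        · intro F hF ha
          exact (wide_num hXR hPc hPn c5.le c4 (by linarith) (by positivity) ha (by linarith)).trans
            (rep_meet hνc hE hX0 q3 (hmem2 F hF) (g2 F hF))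

end AEZ
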